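import Pool.Agent.helper95.Sch.BI
import Pool.Agent.helper79.Sch.SP1
import Pool.Agent.helper61.Sch.PO1
import Pool.Agent.helper61.Sch.AL1
import Pool.Agent.helper54.Sch.AL3

/-! Module SU: the planar support theorem (upper bound). -/

open scoped Pointwise ContDiff Manifold
open MeasureTheory Set Filter Topology

namespace Pool.Agent.helper41.Sch

lemma SU_line {f : P → ℝ} (hf : ConvexOn ℝ univ f) {y v : P} {ε : ℝ} (hε : 0 < ε)
    (e : f (y + ε • v) + f (y - ε • v) = 2 * f y) {s : ℝ} (hs : |s| ≤ ε) :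
    f (y + s • v) ≤ f y + (f (y + ε • v) - f y) / ε * s := by
  have hs' := abs_le.1 hs
  have h1 : 0 ≤ (1 + s / ε) / 2 := by
    have : -1 ≤ s / ε := by rw [le_div_iff₀ hε]; linarith [hs'.1]
    linarith
  have h2 : 0 ≤ (1 - s / ε) / 2 := by
    have : s / ε ≤ 1 := by rw [div_le_iff₀ hε]; linarith [hs'.2]
    linarith
  have h := hf.2 (mem_univ (y + ε • v)) (mem_univ (y - ε • v)) h1 h2 (by ring)
  have e2 : ((1 + s / ε) / 2) • (y + ε • v) + ((1 - s / ε) / 2) • (y - ε • v) = y + s • v := by
    ext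
    · simp
      field_simp
      ring
    · simp
      field_simp
      ring
  rw [e2] at h
  simp only [smul_eq_mul] at h
  have e3 : f (y - ε • v) = 2 * f y - f (y + ε • v) := by linarith
  rw [e3] at h
  refine h.trans (le_of_eq ?_)
  field_simp
  ring

lemma SU_mid {f : P → ℝ} (hf : ConvexOn ℝ univ f) (x z : P) :
    f ((1 / 2 : ℝ) • x + (1 / 2 : ℝ) • z) ≤ 1 / 2 * f x + 1 / 2 * f z := by
  have h : (1 / 2 : ℝ) + 1 / 2 = 1 := by norm_num
  have h0 : (0 : ℝ) ≤ 1 / 2 := by norm_num
  simpa only [smul_eq_mul] using hf.2 (mem_univ x) (mem_univ z) h0 h0 h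

lemma SU_affine {f : P → ℝ} (hf : ConvexOn ℝ univ f) {y : P}
    (h1 : FlatAt f y ((1 : ℝ), (0 : ℝ))) (h2 : FlatAt f y ((0 : ℝ), (1 : ℝ))) :
    ∃ (a : P) (c r : ℝ), 0 < r ∧ ∀ x ∈ Metric.ball y r, f x = dot a x + c := by
  obtain ⟨ε1, hε1, e1⟩ := h1
  obtain ⟨ε2, hε2, e2⟩ := h2
  set a1 := (f (y + ε1 • ((1 : ℝ), (0 : ℝ))) - f y) / ε1 with ha1
  set a2 := (f (y + ε2 • ((0 : ℝ), (1 : ℝ))) - f y) / ε2 with ha2
  have key : ∀ s t : ℝ, |s| ≤ ε1 / 2 → |t| ≤ ε2 / 2 →
      f (y + (s, t)) ≤ f y + a1 * s + a2 * t := by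
    intro s t hs ht
    have hs2 : |2 * s| ≤ ε1 := by rw [abs_mul]; norm_num; linarith
    have ht2 : |2 * t| ≤ ε2 := by rw [abs_mul]; norm_num; linarith
    have g1 := SU_line hf hε1 e1 hs2
    have g2 := SU_line hf hε2 e2 ht2
    have h := SU_mid hf (y + (2 * s) • ((1 : ℝ), (0 : ℝ))) (y + (2 * t) • ((0 : ℝ), (1 : ℝ)))
    have e3 : (1 / 2 : ℝ) • (y + (2 * s) • ((1 : ℝ), (0 : ℝ)))
        + (1 / 2 : ℝ) • (y + (2 * t) • ((0 : ℝ), (1 : ℝ))) = y + (s, t) := by
      ext
      · simp
        ring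
      · simp
        ring
    rw [e3] at h
    linarith
  have key2 : ∀ s t : ℝ, |s| ≤ ε1 / 2 → |t| ≤ ε2 / 2 →
      f (y + (s, t)) = f y + a1 * s + a2 * t := by
    intro s t hs ht
    have g1 := key s t hs ht
    have g2 := key (-s) (-t) (by rwa [abs_neg]) (by rwa [abs_neg])
    have h := SU_mid hf (y + (s, t)) (y + (-s, -t))
    have e3 : (1 / 2 : ℝ) • (y + (s, t)) + (1 / 2 : ℝ) • (y + (-s, -t)) = y := by
      ext
      · simp
        ring
      · simp
        ring
    rw [e3] at h
    linarith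
  refine ⟨(a1, a2), f y - dot (a1, a2) y, min (ε1 / 2) (ε2 / 2), by positivity, ?_⟩
  intro x hx
  rw [Metric.mem_ball, Prod.dist_eq, max_lt_iff, Real.dist_eq, Real.dist_eq] at hx
  have g1 : |x.1 - y.1| ≤ ε1 / 2 := hx.1.le.trans (min_le_left _ _)
  have g2 : |x.2 - y.2| ≤ ε2 / 2 := hx.2.le.trans (min_le_right _ _)
  have h := key2 _ _ g1 g2
  have e3 : y + (x.1 - y.1, x.2 - y.2) = x := by ext <;> simp
  rw [e3] at h
  rw [h]
  unfold dot
  simp only
  ring

lemma SU_meas_le {ν : Measure P} [IsFiniteMeasure ν] {s : Set P} (hs : MeasurableSet s)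
    {φ : P → ℝ} (hφ : Test φ) (h1 : ∀ x ∈ s, 1 ≤ φ x) : (ν s).toReal ≤ ∫ x, φ x ∂ν := by
  have hint : Integrable φ ν := hφ.1.1.continuous.integrable_of_hasCompactSupport hφ.1.2
  have e : (ν s).toReal = ∫ x, s.indicator (fun _ => (1 : ℝ)) x ∂ν := by
    rw [integral_indicator hs]
    simp [Measure.real]
  rw [e]
  apply integral_mono ((integrable_const (1 : ℝ)).indicator hs) hint
  intro x
  by_cases hx : x ∈ s
  · simp only [Set.indicator_of_mem hx]
    exact h1 x hx
  · simp only [Set.indicator_of_notMem hx]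
    exact hφ.2 x

/-- points near which `f` is affine -/
def SU_aff (f : P → ℝ) : Set P :=
  {y | ∃ (a : P) (c r : ℝ), 0 < r ∧ ∀ x ∈ Metric.ball y r, f x = dot a x + c}

lemma SU_aff_open (f : P → ℝ) : IsOpen (SU_aff f) := by
  rw [Metric.isOpen_iff]
  rintro y ⟨a, c, r, hr, h⟩
  refine ⟨r, hr, ?_⟩
  intro y' hy'
  rw [Metric.mem_ball] at hy'
  refine ⟨a, c, r - dist y' y, by linarith, ?_⟩
  intro x hx
  apply h
  rw [Metric.mem_ball] at hx ⊢
  linarith [dist_triangle x y' y]

lemma SU_aff_null {f g : P → ℝ} (hg : LC g) (ν : Measure P) [IsFiniteMeasure ν]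
    (hν : ∀ φ, Test φ → ∫ x, φ x ∂ν = B φ f g) : ν (SU_aff f) = 0 := by
  apply measure_null_of_locally_null
  rintro y ⟨a, c, r, hr, h⟩
  let b : ContDiffBump y := ⟨r / 4, r / 2, by linarith, by linarith⟩
  have hb : Test (fun x => b x) :=
    ⟨⟨b.contDiff, b.hasCompactSupport⟩, fun x => b.nonneg⟩
  have hts : tsupport (fun x => b x) ⊆ Metric.ball y r := by
    have : tsupport (fun x => b x) = Metric.closedBall y (r / 2) := b.tsupport_eq
    rw [this]
    exact Metric.closedBall_subset_ball (by linarith)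
  refine ⟨Metric.ball y (r / 4), mem_nhdsWithin_of_mem_nhds (Metric.ball_mem_nhds y (by linarith)),
    ?_⟩
  have h0 := hν _ hb
  rw [B_affine hb.1 hg.2 a c (Metric.ball y r) Metric.isOpen_ball hts f h] at h0
  have h1 := SU_meas_le (ν := ν) (s := Metric.ball y (r / 4)) Metric.isOpen_ball.measurableSet hb
    (fun x hx => by
      have : b x = 1 := b.one_of_mem_closedBall (Metric.ball_subset_closedBall hx)
      exact this.ge)
  rw [h0] at h1
  have h2 : (ν (Metric.ball y (r / 4))).toReal = 0 := le_antisymm h1 ENNReal.toReal_nonneg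
  rcases (ENNReal.toReal_eq_zero_iff _).1 h2 with h3 | h3
  · exact h3
  · exact absurd h3 (measure_ne_top ν _)

lemma SU_cutoff {Z W : Set P} (hZ : IsClosed Z) (hW : IsOpen W) (hZW : Z ⊆ W) :
    ∃ φ : P → ℝ, ContDiff ℝ ∞ φ ∧ (∀ x ∈ Z, φ x = 1) ∧ (∀ x, x ∉ W → φ x = 0) ∧
      ∀ x, 0 ≤ φ x ∧ φ x ≤ 1 := by
  obtain ⟨φ, h0, h1, h2⟩ := exists_contMDiffMap_zero_one_of_isClosed (n := ⊤) 𝓘(ℝ, P)
    (s := Wᶜ) (t := Z) hW.isClosed_compl hZ
    (by rw [Set.disjoint_left]; intro x hx hx2; exact hx (hZW hx2))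
  refine ⟨φ, φ.contMDiff.contDiff, fun x hx => h1 hx, fun x hx => h0 hx, fun x => h2 x⟩

lemma SU_sel_unique {φ h : P → ℝ} {p y : P} (hy : IsArgmin h p y)
    (hu : ∀ y', IsArgmin h p y' → y' = y) : sel φ h p = φ y := by
  unfold sel
  have : {y | IsArgmin h p y} = {y} := by
    ext z
    simp only [mem_ofPred_eq, mem_singleton_iff]
    exact ⟨hu z, fun hz => hz ▸ hy⟩
  rw [this, image_singleton, csSup_singleton]

lemma SU_sel_empty {φ h : P → ℝ} {p : P} (hy : ¬ ∃ y, IsArgmin h p y) : sel φ h p = 0 := by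
  unfold sel
  have : {y | IsArgmin h p y} = ∅ := by
    ext z
    simp only [mem_ofPred_eq, mem_empty_iff_false, iff_false]
    exact fun hz => hy ⟨z, hz⟩
  rw [this, image_empty, Real.sSup_empty]

lemma SU_flat_small {f : P → ℝ} (hf : ConvexOn ℝ univ f) {y v : P} {ε : ℝ} (hε : 0 < ε)
    (e : f (y + ε • v) + f (y - ε • v) = 2 * f y) {s : ℝ} (h0 : 0 ≤ s) (hs : s ≤ ε) :
    f (y + s • v) + f (y - s • v) = 2 * f y := by
  have g1 := SU_line hf hε e (s := s) (by rwa [abs_of_nonneg h0])
  have g2 := SU_line hf hε e (s := -s) (by rwa [abs_neg, abs_of_nonneg h0])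
  have e1 : y + (-s) • v = y - s • v := by rw [neg_smul, sub_eq_add_neg]
  rw [e1] at g2
  have h := SU_mid hf (y + s • v) (y - s • v)
  have e3 : (1 / 2 : ℝ) • (y + s • v) + (1 / 2 : ℝ) • (y - s • v) = y := by
    ext
    · simp
      ring
    · simp
      ring
  rw [e3] at h
  linarith

lemma SU_B_le {φ f g : P → ℝ} (hφ : Test φ) (hf : LC f) (hg : LC g) :
    2 * B φ f g ≤ B φ (fun x => f x + g x) (fun x => f x + g x) := by
  have hL : Lip (fun x => f x + g x) := by
    obtain ⟨K, hK⟩ := hf.2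
    obtain ⟨K', hK'⟩ := hg.2
    exact ⟨K + K', hK.add hK'⟩
  have h1 := B_add_left hφ.1 hf.2 hg.2 hL
  rw [B_symm φ f, B_symm φ g, B_add_left hφ.1 hf.2 hg.2 hf.2, B_add_left hφ.1 hf.2 hg.2 hg.2] at h1
  have h2 := B_symm φ g f
  have h3 := B_nonneg hφ hf.2 hf.2 univ isOpen_univ convex_univ (subset_univ _) hf.1 hf.1
  have h4 := B_nonneg hφ hg.2 hg.2 univ isOpen_univ convex_univ (subset_univ _) hg.1 hg.1
  linarith

theorem null_of_flat {f g : P → ℝ} (hf : LC f) (hg : LC g) (ν : Measure P) [IsFiniteMeasure ν]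
    (hν : ∀ φ, Test φ → ∫ x, φ x ∂ν = B φ f g) {U : Set P} (hU : IsOpen U)
    (h : ∀ y ∈ U, (∀ v, FlatAt f y v) ∨ (∀ v, FlatAt g y v) ∨
      ∃ v, v ≠ 0 ∧ FlatAt f y v ∧ FlatAt g y v) : ν U = 0 := by
  have hνf : ν (SU_aff f) = 0 := SU_aff_null hg ν hν
  have hνg : ν (SU_aff g) = 0 := SU_aff_null hf ν (fun φ hφ => by rw [hν φ hφ, B_symm])
  set Z := U \ (SU_aff f ∪ SU_aff g) with hZd
  have hZm : MeasurableSet Z :=
    hU.measurableSet.diff ((SU_aff_open f).union (SU_aff_open g)).measurableSet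
  have hflat : ∀ y ∈ Z, ∃ v, v ≠ 0 ∧ FlatAt f y v ∧ FlatAt g y v := by
    intro y hy
    rcases h y hy.1 with h1 | h1 | h1
    · exact absurd (Or.inl (SU_affine hf.1 (h1 _) (h1 _))) hy.2
    · exact absurd (Or.inr (SU_affine hg.1 (h1 _) (h1 _))) hy.2
    · exact h1
  set k : P → ℝ := fun x => f x + g x with hk
  have hkLC : LC k := by
    refine ⟨hf.1.add hg.1, ?_⟩
    obtain ⟨K, hK⟩ := hf.2
    obtain ⟨K', hK'⟩ := hg.2
    exact ⟨K + K', hK.add hK'⟩
  have hcompact : ∀ C, IsCompact C → C ⊆ Z → ν C = 0 := by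
    intro C hC hCZ
    -- cut-off functions
    have hex : ∀ j : ℕ, ∃ φ : P → ℝ, ContDiff ℝ ∞ φ ∧ (∀ x ∈ C, φ x = 1) ∧
        (∀ x, x ∉ Metric.thickening (1 / ((j : ℝ) + 1)) C → φ x = 0) ∧
        ∀ x, 0 ≤ φ x ∧ φ x ≤ 1 := fun j =>
      SU_cutoff hC.isClosed Metric.isOpen_thickening
        (Metric.self_subset_thickening (by positivity) C)
    choose φ hφ1 hφ2 hφ3 hφ4 using hex
    have hsupp : ∀ j, tsupport (φ j) ⊆ Metric.cthickening (1 / ((j : ℝ) + 1)) C := by
      intro j
      refine closure_minimal ?_ Metric.isClosed_cthickening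
      intro x hx
      by_contra hx2
      exact hx (hφ3 j x (fun hx3 => hx2 (Metric.thickening_subset_cthickening _ _ hx3)))
    have hcc : IsCompact (Metric.cthickening (1 : ℝ) C) := hC.cthickening
    have hj1 : ∀ j : ℕ, 1 / ((j : ℝ) + 1) ≤ 1 := by
      intro j
      rw [div_le_one (by positivity)]
      have : (0 : ℝ) ≤ j := Nat.cast_nonneg j
      linarith
    have hsupp1 : ∀ j, tsupport (φ j) ⊆ Metric.cthickening (1 : ℝ) C := fun j =>
      (hsupp j).trans (Metric.cthickening_mono (hj1 j) C)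
    have hφT : ∀ j, Test (φ j) := fun j =>
      ⟨⟨hφ1 j, hcc.of_isClosed_subset (isClosed_tsupport _) (hsupp1 j)⟩, fun x => (hφ4 j x).1⟩
    -- a dominating test function
    obtain ⟨χ, hχ1, hχ2, hχ3, hχ4⟩ := SU_cutoff (Z := Metric.cthickening (1 : ℝ) C)
      (W := Metric.thickening (1 : ℝ) (Metric.cthickening (1 : ℝ) C)) Metric.isClosed_cthickening
      Metric.isOpen_thickening (Metric.self_subset_thickening (by norm_num) _)
    have hχT : Test χ := by
      refine ⟨⟨hχ1, ?_⟩, fun x => (hχ4 x).1⟩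
      have hcc2 : IsCompact (Metric.cthickening (1 : ℝ) (Metric.cthickening (1 : ℝ) C)) :=
        hcc.cthickening
      refine hcc2.of_isClosed_subset (isClosed_tsupport _) ?_
      refine closure_minimal ?_ Metric.isClosed_cthickening
      intro x hx
      by_contra hx2
      exact hx (hχ3 x (fun hx3 => hx2 (Metric.thickening_subset_cthickening _ _ hx3)))
    have hφχ : ∀ j x, φ j x ≤ χ x := by
      intro j x
      by_cases hx : x ∈ Metric.cthickening (1 : ℝ) C
      · rw [hχ2 x hx]; exact (hφ4 j x).2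
      · have : φ j x = 0 := by
          apply image_eq_zero_of_notMem_tsupport
          exact fun hx2 => hx (hsupp1 j hx2)
        rw [this]; exact (hχ4 x).1
    -- the bound
    have hle : ∀ j, 2 * (ν C).toReal ≤ ∫ p, sel (φ j) k p := by
      intro j
      have h1 := SU_meas_le (ν := ν) hC.isClosed.measurableSet (hφT j)
        (fun x hx => (hφ2 j x hx).ge)
      rw [hν _ (hφT j)] at h1
      have h2 := SU_B_le (hφT j) hf hg
      rw [alexandrov (hφT j).1 hkLC]
      linarith
    have hlim : Tendsto (fun j => ∫ p, sel (φ j) k p) atTop (𝓝 (∫ _ : P, (0 : ℝ))) := by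
      apply tendsto_integral_of_dominated_convergence (fun p => sel χ k p)
      · intro j
        exact (sel_integrable (hφT j).1 hkLC).aestronglyMeasurable
      · exact sel_integrable hχT.1 hkLC
      · intro j
        filter_upwards [ae_argmin_unique hkLC] with p hp
        by_cases hy : ∃ y, IsArgmin k p y
        · obtain ⟨y, hy⟩ := hy
          rw [SU_sel_unique hy (fun y' hy' => hp y' y hy' hy),
            SU_sel_unique hy (fun y' hy' => hp y' y hy' hy), Real.norm_eq_abs,
            abs_of_nonneg (hφ4 j y).1]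
          exact hφχ j y
        · rw [SU_sel_empty hy, SU_sel_empty hy]; simp
      · filter_upwards [ae_argmin_unique hkLC] with p hp
        by_cases hy : ∃ y, IsArgmin k p y
        · obtain ⟨y, hy⟩ := hy
          have e : ∀ j, sel (φ j) k p = φ j y := fun j =>
            SU_sel_unique hy (fun y' hy' => hp y' y hy' hy)
          simp only [e]
          have hyC : y ∉ C := by
            intro hyC
            obtain ⟨v, hv, ⟨ε1, hε1, e1⟩, ε2, hε2, e2⟩ := hflat y (hCZ hyC)
            set ε := min ε1 ε2 with hε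
            have hε0 : 0 < ε := lt_min hε1 hε2
            have f1 := SU_flat_small hf.1 hε1 e1 hε0.le (min_le_left _ _)
            have f2 := SU_flat_small hg.1 hε2 e2 hε0.le (min_le_right _ _)
            have a1 := hy (y + ε • v)
            have a2 := hy (y - ε • v)
            have hd1 : dot p (y + ε • v) = dot p y + ε * dot p v := by
              unfold dot; simp; ring
            have hd2 : dot p (y - ε • v) = dot p y - ε * dot p v := by
              unfold dot; simp; ring
            rw [hd1] at a1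
            rw [hd2] at a2
            have hk1 : k (y + ε • v) = f (y + ε • v) + g (y + ε • v) := rfl
            have hk2 : k (y - ε • v) = f (y - ε • v) + g (y - ε • v) := rfl
            have hk0 : k y = f y + g y := rfl
            have hnew : IsArgmin k p (y + ε • v) := by
              intro z
              refine le_trans ?_ (hy z)
              rw [hd1]
              linarith
            have := hp _ _ hnew hy
            have h3 : ε • v = 0 := by simpa using this
            rcases smul_eq_zero.1 h3 with h4 | h4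
            · exact hε0.ne' h4
            · exact hv h4
          -- eventually zero
          have hev : ∀ᶠ j : ℕ in atTop, φ j y = 0 := by
            have hpos : 0 < Metric.infDist y C ∨ C = ∅ := by
              rcases C.eq_empty_or_nonempty with hCe | hCe
              · exact Or.inr hCe
              · exact Or.inl ((hC.isClosed.notMem_iff_infDist_pos hCe).1 hyC)
            rcases hpos with hpos | hCe
            · obtain ⟨N, hN⟩ := exists_nat_one_div_lt hpos
              filter_upwards [eventually_ge_atTop N] with j hj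
              apply hφ3 j y
              intro hmem
              rw [Metric.mem_thickening_iff] at hmem
              obtain ⟨z, hz, hd⟩ := hmem
              have h5 := Metric.infDist_le_dist_of_mem (x := y) hz
              have h6 : 1 / ((j : ℝ) + 1) ≤ 1 / ((N : ℝ) + 1) := by
                apply one_div_le_one_div_of_le (by positivity)
                have : (N : ℝ) ≤ j := by exact_mod_cast hj
                linarith
              linarith
            · filter_upwards with j
              apply hφ3 j y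
              rw [hCe, Metric.thickening_empty]
              exact notMem_empty y
          exact tendsto_const_nhds.congr' (hev.mono fun j hj => hj.symm)
        · have e : ∀ j, sel (φ j) k p = 0 := fun j => SU_sel_empty hy
          simp only [e]
          exact tendsto_const_nhds
    rw [integral_zero] at hlim
    have h1 : 2 * (ν C).toReal ≤ 0 := ge_of_tendsto' hlim hle
    have h2 : (ν C).toReal = 0 := by
      have : 0 ≤ (ν C).toReal := ENNReal.toReal_nonneg
      linarith
    rcases (ENNReal.toReal_eq_zero_iff _).1 h2 with h3 | h3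
    · exact h3
    · exact absurd h3 (measure_ne_top ν _)
  have hZ0 : ν Z = 0 := by
    rw [hZm.measure_eq_iSup_isCompact_of_ne_top (measure_ne_top ν Z)]
    simp only [ENNReal.iSup_eq_zero]
    intro C hCZ hC
    exact hcompact C hC hCZ
  have hsub : U ⊆ (SU_aff f ∪ SU_aff g) ∪ Z := by
    intro x hx
    by_cases hx2 : x ∈ SU_aff f ∪ SU_aff g
    · exact Or.inl hx2
    · exact Or.inr ⟨hx, hx2⟩
  refine measure_mono_null hsub ?_
  rw [measure_union_null_iff, measure_union_null_iff]
  exact ⟨⟨hνf, hνg⟩, hZ0⟩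

end Pool.Agent.helper41.Sch
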