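import Pool.Agent.helper18.Sch.SU
import Pool.Agent.helper3.Sch.TC
import Pool.Agent.helper17.Sch.LI

/-! Module UP: the upper bound for the support. -/

open scoped Pointwise ContDiff
open MeasureTheory Set Filter Topology

namespace Pool.Agent.helper41.Sch

lemma UP_flat_scale {K : Set E3} (hK : IsBody K) {x v : E3} {c : ℝ} (hc : 0 < c)
    (h : FlatE (hE K) (c • x) v) : FlatE (hE K) x v := by
  obtain ⟨ε, hε, e⟩ := h
  have hom := (hE_facts hK hK).2.2.1 c hc.le
  have e1 : c • x + ε • v = c • (x + (ε / c) • v) := by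
    rw [smul_add, smul_smul, mul_div_cancel₀ _ hc.ne']
  have e2 : c • x - ε • v = c • (x - (ε / c) • v) := by
    rw [smul_sub, smul_smul, mul_div_cancel₀ _ hc.ne']
  rw [e1, e2, hom, hom, hom] at e
  refine ⟨ε / c, by positivity, ?_⟩
  have : c * (hE K (x + (ε / c) • v) + hE K (x - (ε / c) • v)) = c * (2 * hE K x) := by
    linarith
  exact mul_left_cancel₀ hc.ne' this

/-- the point of the plane `⟪b 2, ·⟫ = 1` over `y` -/
noncomputable def UPv (b : OrthonormalBasis (Fin 3) ℝ E3) (y : P) : E3 :=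
  y.1 • b 0 + y.2 • b 1 + b 2

lemma UPv_cont (b : OrthonormalBasis (Fin 3) ℝ E3) : Continuous (UPv b) := by
  unfold UPv; fun_prop

lemma UPv_inner (b : OrthonormalBasis (Fin 3) ℝ E3) (y : P) : inner ℝ (b 2) (UPv b y) = 1 := by
  unfold UPv
  rw [inner_add_right, inner_add_right, inner_smul_right, inner_smul_right]
  simp only [OrthonormalBasis.inner_eq_ite]
  simp

lemma UPv_ne (b : OrthonormalBasis (Fin 3) ℝ E3) (y : P) : UPv b y ≠ 0 := by
  intro h
  have := UPv_inner b y
  rw [h, inner_zero_right] at this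
  exact one_ne_zero this.symm

lemma UP_flatAt (b : OrthonormalBasis (Fin 3) ℝ E3) {K : Set E3} {y w : P}
    (h : FlatE (hE K) (UPv b y) (w.1 • b 0 + w.2 • b 1)) : FlatAt (chart b K) y w := by
  obtain ⟨ε, hε, e⟩ := h
  refine ⟨ε, hε, ?_⟩
  unfold chart
  have e1 : (y + ε • w).1 • b 0 + (y + ε • w).2 • b 1 + b 2
      = UPv b y + ε • (w.1 • b 0 + w.2 • b 1) := by
    unfold UPv
    simp only [Prod.fst_add, Prod.snd_add, Prod.smul_fst, Prod.smul_snd, smul_eq_mul]
    module
  have e2 : (y - ε • w).1 • b 0 + (y - ε • w).2 • b 1 + b 2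
      = UPv b y - ε • (w.1 • b 0 + w.2 • b 1) := by
    unfold UPv
    simp only [Prod.fst_sub, Prod.snd_sub, Prod.smul_fst, Prod.smul_snd, smul_eq_mul]
    module
  rw [e1, e2]
  exact e

lemma UP_expand (b : OrthonormalBasis (Fin 3) ℝ E3) (v : E3) :
    v = inner ℝ (b 0) v • b 0 + inner ℝ (b 1) v • b 1 + inner ℝ (b 2) v • b 2 := by
  have := b.sum_repr' v
  rw [Fin.sum_univ_three] at this
  exact this.symm

lemma UP_planar {K L : Set E3} (hK : IsBody K) (hL : IsBody L)
    (b : OrthonormalBasis (Fin 3) ℝ E3) {y : P}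
    (hy : (‖UPv b y‖⁻¹ • UPv b y) ∉ extremeDirections K L) :
    (∀ v, FlatAt (chart b K) y v) ∨ (∀ v, FlatAt (chart b L) y v) ∨
      ∃ v, v ≠ 0 ∧ FlatAt (chart b K) y v ∧ FlatAt (chart b L) y v := by
  set x := UPv b y with hx
  have hx0 : x ≠ 0 := UPv_ne b y
  have hn : 0 < ‖x‖ := norm_pos_iff.2 hx0
  have hc : 0 < ‖x‖⁻¹ := inv_pos.2 hn
  have hsph : ‖x‖⁻¹ • x ∈ Metric.sphere (0 : E3) 1 := by
    rw [mem_sphere_zero_iff_norm, norm_smul, norm_inv, norm_norm, inv_mul_cancel₀ hn.ne']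
  rw [mem_extreme_iff hK hL _ hsph] at hy
  by_cases h1 : ∃ v, ¬ FlatE (hE K) (‖x‖⁻¹ • x) v
  · by_cases h2 : ∃ v, ¬ FlatE (hE L) (‖x‖⁻¹ • x) v
    · have h3 : ¬ ∀ v, FlatE (hE K) (‖x‖⁻¹ • x) v → FlatE (hE L) (‖x‖⁻¹ • x) v →
          ∃ t : ℝ, v = t • (‖x‖⁻¹ • x) := fun h3 => hy ⟨h1, h2, h3⟩
      push Not at h3
      obtain ⟨v, hvK, hvL, hv⟩ := h3
      obtain ⟨WK, hWK1, hWK2, -⟩ := touching_span hK hx0
      obtain ⟨WL, hWL1, hWL2, -⟩ := touching_span hL hx0
      have hvK' := (hWK2 v).2 (UP_flat_scale hK hc hvK)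
      have hvL' := (hWL2 v).2 (UP_flat_scale hL hc hvL)
      set s := inner ℝ (b 2) v with hs
      set v' := v - s • x with hv'
      have hv'0 : v' ≠ 0 := by
        intro h0
        apply hv (s * ‖x‖)
        rw [smul_smul, mul_assoc, mul_inv_cancel₀ hn.ne', mul_one]
        exact sub_eq_zero.1 h0
      have hin : inner ℝ (b 2) v' = 0 := by
        rw [hv', inner_sub_right, inner_smul_right, hx, UPv_inner, mul_one, sub_self]
      have hexp : v' = inner ℝ (b 0) v' • b 0 + inner ℝ (b 1) v' • b 1 := by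
        have := UP_expand b v'
        rw [hin, zero_smul, add_zero] at this
        exact this
      refine Or.inr (Or.inr ⟨(inner ℝ (b 0) v', inner ℝ (b 1) v'), ?_, ?_, ?_⟩)
      · intro h0
        rw [Prod.mk_eq_zero] at h0
        apply hv'0
        rw [hexp, h0.1, h0.2]
        simp
      · apply UP_flatAt
        simp only
        rw [← hexp]
        exact (hWK2 v').1 (WK.sub_mem hvK' (WK.smul_mem s hWK1))
      · apply UP_flatAt
        simp only
        rw [← hexp]
        exact (hWL2 v').1 (WL.sub_mem hvL' (WL.smul_mem s hWL1))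
    · push Not at h2
      exact Or.inr (Or.inl fun v => UP_flatAt b (UP_flat_scale hL hc (h2 _)))
  · push Not at h1
    exact Or.inl fun v => UP_flatAt b (UP_flat_scale hK hc (h1 _))

lemma UP_LC {K : Set E3} (hK : IsBody K) (b : OrthonormalBasis (Fin 3) ℝ E3) : LC (chart b K) := by
  obtain ⟨h1, -, -, -, -, -, h7⟩ := coord_facts b
  rw [← h7 K hK]
  exact F_LC (h1 K hK)

/-- the density -/
noncomputable def UPρ (b : OrthonormalBasis (Fin 3) ℝ E3) (v : E3) : ENNReal :=
  ENNReal.ofReal (inner ℝ (b 2) v)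

/-- the central projection -/
noncomputable def UPπ (b : OrthonormalBasis (Fin 3) ℝ E3) (v : E3) : P :=
  ((inner ℝ (b 2) v)⁻¹ * inner ℝ (b 0) v, (inner ℝ (b 2) v)⁻¹ * inner ℝ (b 1) v)

lemma UPρ_meas (b : OrthonormalBasis (Fin 3) ℝ E3) : Measurable (UPρ b) := by
  unfold UPρ
  exact ENNReal.measurable_ofReal.comp (by fun_prop)

lemma UPπ_meas (b : OrthonormalBasis (Fin 3) ℝ E3) : Measurable (UPπ b) := by
  unfold UPπ
  fun_prop

/-- the planar measure -/
noncomputable def UPν (b : OrthonormalBasis (Fin 3) ℝ E3) (S : Measure E3) : Measure P :=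
  (S.withDensity (UPρ b)).map (UPπ b)

lemma UPν_finite (b : OrthonormalBasis (Fin 3) ℝ E3) {S : Measure E3} [IsFiniteMeasure S]
    (hS : S (Metric.sphere (0 : E3) 1)ᶜ = 0) : IsFiniteMeasure (UPν b S) := by
  have h : IsFiniteMeasure (S.withDensity (UPρ b)) := by
    apply isFiniteMeasure_withDensity
    have h1 : ∫⁻ v, UPρ b v ∂S ≤ ∫⁻ _, 1 ∂S := by
      apply lintegral_mono_ae
      have h2 : ∀ᵐ v ∂S, v ∈ Metric.sphere (0 : E3) 1 := by
        rw [ae_iff]; exact hS
      filter_upwards [h2] with v hv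
      unfold UPρ
      rw [ENNReal.ofReal_le_one]
      rw [mem_sphere_zero_iff_norm] at hv
      have := real_inner_le_norm (b 2) v
      rw [hv, b.norm_eq_one] at this
      linarith
    refine ne_of_lt (lt_of_le_of_lt h1 ?_)
    rw [lintegral_one]
    exact measure_lt_top S _
  unfold UPν
  exact Measure.isFiniteMeasure_map _ _

lemma UP_integral (b : OrthonormalBasis (Fin 3) ℝ E3) {S : Measure E3} [IsFiniteMeasure S]
    {φ : P → ℝ} (hφ : Test φ) : ∫ x, φ x ∂(UPν b S) = ∫ v, lift b φ v ∂S := by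
  unfold UPν
  rw [integral_map (UPπ_meas b).aemeasurable hφ.1.1.continuous.aestronglyMeasurable]
  rw [integral_withDensity_eq_integral_toReal_smul (UPρ_meas b)
    (Filter.Eventually.of_forall fun v => ENNReal.ofReal_lt_top)]
  apply integral_congr_ae
  filter_upwards with v
  unfold UPρ UPπ lift tilde coord
  simp only [smul_eq_mul]
  split_ifs with h
  · rw [ENNReal.toReal_ofReal h.le]
    rfl
  · rw [ENNReal.ofReal_of_nonpos (not_lt.1 h)]
    simp

theorem upper {K L : Set E3} (hK : IsBody K) (hL : IsBody L) {S : Measure E3}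
    (hS : IsMixedArea K L S) {u : E3} (hu : u ∈ Metric.sphere (0 : E3) 1) {U : Set E3}
    (hU : IsOpen U) (huU : u ∈ U) (hUE : ∀ v ∈ U, v ∉ extremeDirections K L) :
    ∃ U' : Set E3, IsOpen U' ∧ u ∈ U' ∧ S U' = 0 := by
  have hu1 : ‖u‖ = 1 := mem_sphere_zero_iff_norm.1 hu
  obtain ⟨b, hb⟩ : ∃ b : OrthonormalBasis (Fin 3) ℝ E3, b 2 = u := by
    have hfin : Module.finrank ℝ E3 = Fintype.card (Fin 3) := by simp
    have horth : Orthonormal ℝ (({2} : Set (Fin 3)).domRestrict (fun _ => u)) := by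
      constructor
      · intro i; exact hu1
      · intro i j hij
        exact absurd (Subsingleton.elim i j) hij
    obtain ⟨b, hb⟩ := horth.exists_orthonormalBasis_extension_of_card_eq hfin
    exact ⟨b, hb 2 rfl⟩
  have := hS.1
  have hfin := UPν_finite b hS.2.1
  have hv0 : UPv b 0 = u := by unfold UPv; simp [hb]
  have hcont : ContinuousAt (fun y => ‖UPv b y‖⁻¹ • UPv b y) 0 := by
    change ContinuousAt ((fun y => ‖UPv b y‖⁻¹) • (fun y => UPv b y)) 0
    apply ContinuousAt.smul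
    · apply ContinuousAt.inv₀
      · exact (UPv_cont b).norm.continuousAt
      · exact (norm_pos_iff.2 (UPv_ne b 0)).ne'
    · exact (UPv_cont b).continuousAt
  have hmem : (fun y => ‖UPv b y‖⁻¹ • UPv b y) ⁻¹' U ∈ 𝓝 (0 : P) := by
    apply hcont
    apply hU.mem_nhds
    simp only
    rw [hv0, hu1, inv_one, one_smul]
    exact huU
  obtain ⟨r, hr, hball⟩ := Metric.mem_nhds_iff.1 hmem
  have hnull := null_of_flat (UP_LC hK b) (UP_LC hL b) (UPν b S)
    (fun φ hφ => by rw [UP_integral b hφ]; exact local_identity b hK hL hS hφ)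
    (U := Metric.ball (0 : P) r) Metric.isOpen_ball
    (fun y hy => UP_planar hK hL b (hUE _ (hball hy)))
  unfold UPν at hnull
  rw [Measure.map_apply (UPπ_meas b) Metric.isOpen_ball.measurableSet,
    withDensity_apply_eq_zero (UPρ_meas b)] at hnull
  refine ⟨{v | 0 < (inner ℝ (b 2) v : ℝ) ∧ |(inner ℝ (b 0) v : ℝ)| < r * inner ℝ (b 2) v
    ∧ |(inner ℝ (b 1) v : ℝ)| < r * inner ℝ (b 2) v}, ?_, ?_, ?_⟩
  · apply IsOpen.and
    · exact isOpen_lt (by fun_prop) (by fun_prop)
    · apply IsOpen.and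
      · exact isOpen_lt (by fun_prop) (by fun_prop)
      · exact isOpen_lt (by fun_prop) (by fun_prop)
  · rw [mem_ofPred_eq, ← hb]
    simp only [OrthonormalBasis.inner_eq_ite]
    simp [hr]
  · refine measure_mono_null ?_ hnull
    rintro v ⟨h1, h2, h3⟩
    constructor
    · rw [mem_ofPred_eq]
      unfold UPρ
      exact (ENNReal.ofReal_pos.2 h1).ne'
    · rw [mem_preimage, mem_ball_zero_iff]
      unfold UPπ
      rw [Prod.norm_def, max_lt_iff]
      simp only [Real.norm_eq_abs, abs_mul, abs_inv, abs_of_pos h1]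
      constructor
      · rw [inv_mul_lt_iff₀ h1, mul_comm]; exact h2
      · rw [inv_mul_lt_iff₀ h1, mul_comm]; exact h3

end Pool.Agent.helper41.Sch
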